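import Pool.Agent.Helper23.CC.Spec

/-!
Arithmetically hyperbolic varieties are groupless.
-/

set_option autoImplicit false

namespace Pool.Agent.Helper23.CC

open MvPolynomial Pool.Agent.W600.Alg

variable {k : Type} [Field k] {n r g : ℕ}

theorem ag [IsAlgClosed k] [CharZero k] {m e : Fin r → ℕ}
    {F : Fin r → MvPolynomial (Fin (n + 1)) k} {G : Fin g → MvPolynomial (Fin (n + 1)) k}
    (hah : ArithHyp m e F G) : Groupless e (Pts m F G 1) := by
  classical
  intro a b h D f hf hfX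
  -- polynomials
  choose pX hpX hpX' using hf.1
  choose pW hpW hpW' using hf.2
  have eX : ∀ j, ∀ t : EPt a b h, (f t).1 j = eval t.1 (pX j) := hpX'
  have eW : ∀ i, ∀ t : EPt a b h, (f t).2 i = eval t.1 (pW i) := hpW'
  -- certificates
  obtain ⟨M1, C1, hC1⟩ := exists_cert (k := k) (σ := Fin 3) (κ := Option (Fin (n + 1)))
    (fun i => Option.elim i (curvePoly a b) pX) (by
      intro u hu
      by_contra hne
      have h1 := hu none
      simp only [Option.elim_none] at h1
      rw [eval_curvePoly] at h1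
      let t : EPt a b h := ⟨u, hne, sub_eq_zero.1 h1⟩
      refine (hfX t).1 (funext fun j => ?_)
      rw [eX]
      exact hu (some j))
  obtain ⟨M2, C2, hC2⟩ := exists_cert (k := k) (σ := Fin 3) (κ := Option (Fin 3))
    (fun i => Option.elim i (curvePoly a b) (dblPoly a)) (by
      intro u hu
      by_contra hne
      have h1 := hu none
      simp only [Option.elim_none] at h1
      rw [eval_curvePoly] at h1
      refine dbl3_ne two_ne_zero h hne (sub_eq_zero.1 h1) (funext fun i => ?_)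
      have h2 := hu (some i)
      simp only [Option.elim_some] at h2
      rw [eval_dblPoly] at h2
      exact h2)
  obtain ⟨t0, ht0, htz, htinj⟩ := exists_infinite_order a b h
  -- the ring
  let s : Finset k := (Finset.univ.biUnion fun i => cf (F i)) ∪
    (Finset.univ.biUnion fun j => cf (G j)) ∪ (Finset.univ.biUnion fun j => cf (pX j)) ∪
    (Finset.univ.biUnion fun i => cf (pW i)) ∪
    (Finset.univ.biUnion fun ij : Fin 3 × Option (Fin (n + 1)) => cf (C1 ij.1 ij.2)) ∪
    (Finset.univ.biUnion fun ij : Fin 3 × Option (Fin 3) => cf (C2 ij.1 ij.2)) ∪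
    (Finset.univ.biUnion fun i => cf (dblPoly a i)) ∪ (Finset.univ.image t0.1)
  let A := Subring.closure (s : Set k)
  have hsA : (s : Set k) ⊆ A := Subring.subset_closure
  have m1 : ∀ i, (cf (F i) : Set k) ⊆ A := fun i x hx => hsA (by
    simp only [s, Finset.coe_union, Set.mem_union, Finset.mem_coe, Finset.mem_biUnion,
      Finset.mem_univ, true_and, Finset.mem_image]
    exact Or.inl (Or.inl (Or.inl (Or.inl (Or.inl (Or.inl (Or.inl (⟨i, hx⟩))))))))
  have m2 : ∀ j, (cf (G j) : Set k) ⊆ A := fun j x hx => hsA (by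
    simp only [s, Finset.coe_union, Set.mem_union, Finset.mem_coe, Finset.mem_biUnion,
      Finset.mem_univ, true_and, Finset.mem_image]
    exact Or.inl (Or.inl (Or.inl (Or.inl (Or.inl (Or.inl (Or.inr ⟨j, hx⟩)))))))
  have m3 : ∀ j, (cf (pX j) : Set k) ⊆ A := fun j x hx => hsA (by
    simp only [s, Finset.coe_union, Set.mem_union, Finset.mem_coe, Finset.mem_biUnion,
      Finset.mem_univ, true_and, Finset.mem_image]
    exact Or.inl (Or.inl (Or.inl (Or.inl (Or.inl (Or.inr ⟨j, hx⟩))))))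
  have m5 : ∀ i, (cf (pW i) : Set k) ⊆ A := fun i x hx => hsA (by
    simp only [s, Finset.coe_union, Set.mem_union, Finset.mem_coe, Finset.mem_biUnion,
      Finset.mem_univ, true_and, Finset.mem_image]
    exact Or.inl (Or.inl (Or.inl (Or.inl (Or.inr ⟨i, hx⟩)))))
  have m6 : ∀ j i, (cf (C1 j i) : Set k) ⊆ A := fun j i x hx => hsA (by
    simp only [s, Finset.coe_union, Set.mem_union, Finset.mem_coe, Finset.mem_biUnion,
      Finset.mem_univ, true_and, Finset.mem_image]
    exact Or.inl (Or.inl (Or.inl (Or.inr ⟨(j, i), hx⟩))))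
  have m7 : ∀ j i, (cf (C2 j i) : Set k) ⊆ A := fun j i x hx => hsA (by
    simp only [s, Finset.coe_union, Set.mem_union, Finset.mem_coe, Finset.mem_biUnion,
      Finset.mem_univ, true_and, Finset.mem_image]
    exact Or.inl (Or.inl (Or.inr ⟨(j, i), hx⟩)))
  have m8 : ∀ i, (cf (dblPoly a i) : Set k) ⊆ A := fun i x hx => hsA (by
    simp only [s, Finset.coe_union, Set.mem_union, Finset.mem_coe, Finset.mem_biUnion,
      Finset.mem_univ, true_and, Finset.mem_image]
    exact Or.inl (Or.inr ⟨i, hx⟩))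
  have m12 : ∀ j, t0.1 j ∈ A := fun j => hsA (by
    simp only [s, Finset.coe_union, Set.mem_union, Finset.mem_coe, Finset.mem_biUnion,
      Finset.mem_univ, true_and, Finset.mem_image]
    exact Or.inr ⟨j, rfl⟩)
  -- the orbit
  have horb : ∀ N, Unim A (dbl^[N] t0).1 := by
    intro N
    induction N with
    | zero =>
      refine ⟨m12, fun i => if i = 2 then 1 else 0, fun i => ?_, ?_⟩
      · show (if i = 2 then (1 : k) else 0) ∈ A
        split_ifs
        exacts [one_mem A, zero_mem A]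
      · rw [Fin.sum_univ_three]
        have : (dbl^[0] t0).1 2 = 1 := ht0
        rw [this]
        simp
    | succ N ih =>
      have h1 := unim_eval hC2 m7 m8 ih (by
        rw [eval_curvePoly]
        exact sub_eq_zero.2 (EPt.eq (dbl^[N] t0)))
      rw [Function.iterate_succ_apply']
      refine (congrArg (Unim A) (funext fun i => ?_)).mp h1
      rw [eval_dblPoly]
      rfl
  have hpts : ∀ N, f (dbl^[N] t0) ∈ APts A m F G := by
    intro N
    refine ⟨hfX _, ?_, fun i => ?_⟩
    · have h1 := unim_eval (q := pX) hC1 m6 m3 (horb N) (by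
        rw [eval_curvePoly]
        exact sub_eq_zero.2 (EPt.eq (dbl^[N] t0)))
      refine (congrArg (Unim A) (funext fun i => ?_)).mp h1
      exact (eX i _).symm
    · rw [eW]
      exact eval_mem (m5 i) (horb N).1
  obtain ⟨Z, hZ⟩ := hah s m1 m2
  choose Q hQZ hQ using fun N => hZ _ (hpts N)
  obtain ⟨⟨Q0, hQ0⟩, hinf⟩ := Finite.exists_infinite_fiber (fun N : ℕ => (⟨Q N, hQZ N⟩ : Z))
  rw [Set.infinite_coe_iff] at hinf
  obtain ⟨N0, hN0⟩ := hinf.nonempty
  have hNQ : ∀ N ∈ (fun N : ℕ => (⟨Q N, hQZ N⟩ : Z)) ⁻¹' {⟨Q0, hQ0⟩}, Q N = Q0 :=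
    fun N hN => congrArg Subtype.val hN
  -- functions that vanish on the points of the fibre
  have hvan : ∀ (E : ℕ) (φ : EPt a b h → k), (Src.ell a b h).Reg E φ →
      (∀ N ∈ (fun N : ℕ => (⟨Q N, hQZ N⟩ : Z)) ⁻¹' {⟨Q0, hQ0⟩}, φ (dbl^[N] t0) = 0) →
      ∀ u, φ u = 0 := by
    intro E φ hφ hφ0
    by_contra hne
    push Not at hne
    obtain ⟨u0, hu0⟩ := hne
    obtain ⟨N, hN, hNz⟩ := finite_zeros hφ hu0
    refine (hinf.image (fun x _ y _ hxy => htinj hxy)) ?_
    refine (Finset.finite_toSet N.roots.toFinset).subset ?_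
    rintro _ ⟨l, hl, rfl⟩
    rw [Finset.mem_coe, Multiset.mem_toFinset, Polynomial.mem_roots hN]
    exact hNz _ (htz l) (hφ0 l hl)
  -- all points of the fibre are proportional to `P0 = f (dbl^[N0] t0)`
  obtain ⟨P0, hP0⟩ : ∃ P0, P0 = f (dbl^[N0] t0) := ⟨_, rfl⟩
  have hsame : ∀ N ∈ (fun N : ℕ => (⟨Q N, hQZ N⟩ : Z)) ⁻¹' {⟨Q0, hQ0⟩},
      Same e P0 (f (dbl^[N] t0)) := by
    intro N hN
    have h1 := hQ N
    have h2 := hQ N0
    rw [hNQ N hN] at h1
    rw [hNQ N0 hN0, ← hP0] at h2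
    obtain ⟨c1, hc1, hc1x, hc1w⟩ := h1
    obtain ⟨c2, hc2, hc2x, hc2w⟩ := h2
    refine ⟨c1 / c2, div_ne_zero hc1 hc2, fun j => ?_, fun i => ?_⟩
    · rw [hc1x, hc2x]
      field_simp
    · rw [hc1w, hc2w, div_pow]
      field_simp
  obtain ⟨l0, hl0⟩ : ∃ l, P0.1 l ≠ 0 := by
    by_contra hcon
    push Not at hcon
    refine (hfX (dbl^[N0] t0)).1 ?_
    rw [← hP0]
    exact funext hcon
  have hx : ∀ u j, (f u).1 j * P0.1 l0 - (f u).1 l0 * P0.1 j = 0 := by
    intro u j
    refine hvan D (fun u => (f u).1 j * P0.1 l0 - (f u).1 l0 * P0.1 j) ?_ ?_ u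
    · have := reg_sub (reg_cmul (P0.1 l0) (hf.1 j)) (reg_cmul (P0.1 j) (hf.1 l0))
      refine (congrArg ((Src.ell a b h).Reg D) (funext fun t => ?_)).mp this
      ring
    · intro N hN
      obtain ⟨c, -, hcx, -⟩ := hsame N hN
      rw [hcx, hcx]
      ring
  have hw : ∀ u i, (f u).2 i * P0.1 l0 ^ e i - (f u).1 l0 ^ e i * P0.2 i = 0 := by
    intro u i
    refine hvan (D * e i) (fun u => (f u).2 i * P0.1 l0 ^ e i - (f u).1 l0 ^ e i * P0.2 i) ?_ ?_ u
    · have h1 := reg_pow (hf.1 l0) (e i)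
      rw [mul_comm] at h1
      have := reg_sub (reg_cmul (P0.1 l0 ^ e i) (hf.2 i)) (reg_cmul (P0.2 i) h1)
      refine (congrArg ((Src.ell a b h).Reg (D * e i)) (funext fun t => ?_)).mp this
      ring
    · intro N hN
      obtain ⟨c, -, hcx, hcw⟩ := hsame N hN
      rw [hcx, hcw, mul_pow]
      ring
  have key : ∀ u, ∃ c : k, c ≠ 0 ∧ (∀ j, (f u).1 j = c * P0.1 j) ∧
      ∀ i, (f u).2 i = c ^ e i * P0.2 i := by
    intro u
    have h1 : ∀ j, (f u).1 j = (f u).1 l0 / P0.1 l0 * P0.1 j := by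
      intro j
      have := hx u j
      field_simp
      linear_combination this
    refine ⟨(f u).1 l0 / P0.1 l0, div_ne_zero (fun h0 => ?_) hl0, h1, fun i => ?_⟩
    · refine (hfX u).1 (funext fun j => ?_)
      rw [h1 j, h0]
      simp
    · have h2 := hw u i
      rw [div_pow]
      have h3 : P0.1 l0 ^ e i ≠ 0 := pow_ne_zero _ hl0
      field_simp
      linear_combination h2
  intro t t'
  obtain ⟨c, hc, hcx, hcw⟩ := key t
  obtain ⟨c', hc', hcx', hcw'⟩ := key t'
  refine ⟨c' / c, div_ne_zero hc' hc, fun j => ?_, fun i => ?_⟩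
  · rw [hcx, hcx']
    field_simp
  · rw [hcw, hcw', div_pow]
    have h3 : c ^ e i ≠ 0 := pow_ne_zero _ hc
    field_simp

theorem neg : St_NEG := by
  intro k _ _ _ n r g m e F G hLC
  obtain ⟨p, v, hv, s, D, S, T, ⟨a, b, h, rfl⟩, hD, hPar, W, hW, hX⟩ := hLC
  have hmor : IsMor e (Src.ell a b h) D fun t =>
      ((fun j => S t * p j + T t * v j, fun i => W i t) :
        (Fin (n + 1) → k) × (Fin r → k)) := by
    refine ⟨fun j => ?_, hW⟩
    have := reg_add (reg_cmul (p j) hPar.hS) (reg_cmul (v j) hPar.hT)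
    refine (congrArg ((Src.ell a b h).Reg D) (funext fun t => ?_)).mp this
    ring
  have hmem : ∀ t, ((fun j => S t * p j + T t * v j, fun i => W i t) :
        (Fin (n + 1) → k) × (Fin r → k)) ∈ Pts m F G 1 := by
    intro t
    refine ⟨fun h0 => ?_, (hX t).1, (hX t).2, by simp⟩
    obtain ⟨h1, h2⟩ := hv _ _ h0
    rcases hPar.ne t with h3 | h3
    · exact h3 h1
    · exact h3 h2
  have hng : ¬ Groupless e (Pts m F G 1) := by
    intro hgl
    obtain ⟨t, t', ht⟩ := hPar.nc
    exact ht (not_same hv (hgl a b h D _ hmor hmem t t'))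
  exact ⟨hng, fun hah => hng (ag hah)⟩

end Pool.Agent.Helper23.CC
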