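import Pool.Graph.R_pool_sql_team_seeded_f72693b1.W600.Alg.ArithHyp

/-!
Lines of prescribed contact type, and curves of genus at most one in cyclic covers: definitions.
-/

set_option autoImplicit false

namespace Pool.Agent.Helper23.CC

open MvPolynomial Pool.Agent.W600.Alg

/-- The parameters: the numbers `p j`, `q j` of the line `X (j + 2) = p j X 0 + q j X 1`, the
coefficients `al s`, `be s` of the linear forms, and the coefficients of the cofactors. -/
abbrev Tau (N : ℕ) (A σ : Type) : Type :=
  (Fin N ⊕ Fin N) ⊕ ((σ ⊕ σ) ⊕ (A × Fin N × (Fin (N + 2) →₀ ℕ)))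

/-- The cofactors, forms of degree `d a - 1` with the coefficients `b`. -/
noncomputable def cof {R : Type} [CommRing R] {N : ℕ} {A : Type} (d : A → ℕ)
    (b : A × Fin N × (Fin (N + 2) →₀ ℕ) → R) (a : A) (j : Fin N) : MvPolynomial (Fin (N + 2)) R :=
  ∑ I ∈ Finset.finsuppAntidiag (Finset.univ : Finset (Fin (N + 2))) (d a - 1),
    monomial I (b (a, j, I))

/-- The linear form `al X 0 + be X 1`. -/
noncomputable def lf {R : Type} [CommRing R] {N : ℕ} (al be : R) : MvPolynomial (Fin (N + 2)) R :=
  C al * X 0 + C be * X 1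

/-- The part of the form that does not vanish on the line. -/
noncomputable def top {R : Type} [CommRing R] {N : ℕ} {A σ : Type} [Fintype σ] [DecidableEq A]
    (Z : Finset A) (own : σ → A) (mult : σ → ℕ) (al be : σ → R) (a : A) :
    MvPolynomial (Fin (N + 2)) R :=
  if a ∈ Z then 0 else ∏ s with own s = a, lf (al s) (be s) ^ mult s

/-- The universal form whose restriction to the line is `0` for `a ∈ Z` and the product of the
`mult s`-th powers of the linear forms, `own s = a`, otherwise. -/
noncomputable def FF {R : Type} [CommRing R] {N : ℕ} {A σ : Type} [Fintype σ] [DecidableEq A]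
    (d : A → ℕ) (Z : Finset A) (own : σ → A) (mult : σ → ℕ) (π : Tau N A σ → R) (a : A) :
    MvPolynomial (Fin (N + 2)) R :=
  top Z own mult (fun s => π (.inr (.inl (.inl s)))) (fun s => π (.inr (.inl (.inr s)))) a +
  ∑ j : Fin N, (X j.succ.succ - lf (π (.inl (.inl j))) (π (.inl (.inr j)))) *
    cof d (fun x => π (.inr (.inr x))) a j

/-- The first point of the line. -/
def lp {R : Type} [CommRing R] {N : ℕ} {A σ : Type} (π : Tau N A σ → R) : Fin (N + 2) → R :=
  Fin.cons 1 (Fin.cons 0 fun j => π (.inl (.inl j)))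

/-- The second point of the line. -/
def lq {R : Type} [CommRing R] {N : ℕ} {A σ : Type} (π : Tau N A σ → R) : Fin (N + 2) → R :=
  Fin.cons 0 (Fin.cons 1 fun j => π (.inl (.inr j)))

/-- The derivative of `top` in the direction `(al', be')`. -/
noncomputable def dtop {R : Type} [CommRing R] {N : ℕ} {A σ : Type} [Fintype σ] [DecidableEq σ]
    [DecidableEq A] (Z : Finset A) (own : σ → A) (mult : σ → ℕ) (al be al' be' : σ → R) (a : A) :
    MvPolynomial (Fin (N + 2)) R :=
  if a ∈ Z then 0 else ∑ s with own s = a, (mult s : MvPolynomial (Fin (N + 2)) R) *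
    (lf (al' s) (be' s) * lf (al s) (be s) ^ (mult s - 1)) *
    ∏ u ∈ (Finset.univ.filter fun u => own u = a).erase s, lf (al u) (be u) ^ mult u

/-- The derivative of the form at the point `x` in the direction `v`. -/
noncomputable def dFF {R : Type} [CommRing R] {N : ℕ} {A σ : Type} [Fintype σ] [DecidableEq σ]
    [DecidableEq A] (d : A → ℕ) (Z : Finset A) (own : σ → A) (mult : σ → ℕ)
    (x v : Tau N A σ → R) (a : A) : MvPolynomial (Fin (N + 2)) R :=
  dtop Z own mult (fun s => x (.inr (.inl (.inl s)))) (fun s => x (.inr (.inl (.inr s))))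
    (fun s => v (.inr (.inl (.inl s)))) (fun s => v (.inr (.inl (.inr s)))) a +
  ∑ j : Fin N, ((X j.succ.succ - lf (x (.inl (.inl j))) (x (.inl (.inr j)))) *
    cof d (fun y => v (.inr (.inr y))) a j -
    lf (v (.inl (.inl j))) (v (.inl (.inr j))) * cof d (fun y => x (.inr (.inr y))) a j)

/-- The point `x + ε v` with coordinates in the dual numbers. -/
def dual {K τ : Type} [Field K] (x v : τ → K) : τ → DualNumber K :=
  fun t => TrivSqZeroExt.inl (x t) + TrivSqZeroExt.inr (v t)

/-- The binary form of degree `d` in `X 0`, `X 1` of a polynomial of degree at most `d`. -/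
noncomputable def hz {K : Type} [Field K] (N d : ℕ) (f : Polynomial K) :
    MvPolynomial (Fin (N + 2)) K :=
  ∑ i ∈ Finset.range (d + 1), C (f.coeff i) * X 0 ^ i * X 1 ^ (d - i)

/-- The line through `P`, `Q` with coordinates in `L`, such that the restrictions of the forms
`F a` are `0` for `a ∈ Z`, and constant multiples of products of `mult s`-th powers of linear forms,
`own s = a`, otherwise. -/
def CLine (K L : Type) [Field K] [Field L] [Algebra K L] {n : ℕ} {A σ : Type} [Fintype σ]
    [DecidableEq A] (Z : Finset A) (own : σ → A) (mult : σ → ℕ)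
    (F : A → MvPolynomial (Fin (n + 1)) K) : Prop :=
  ∃ (P Q : Fin (n + 1) → L) (i j : Fin (n + 1)) (al be : σ → L) (c : A → L),
    P i = 1 ∧ P j = 0 ∧ Q i = 0 ∧ Q j = 1 ∧ (∀ s, al s = 1 ∨ be s = 1) ∧
    ∀ a (x y : L), aeval (fun l => x * P l + y * Q l) (F a) =
      if a ∈ Z then 0 else c a * ∏ s with own s = a, (al s * x + be s * y) ^ mult s

/-- A curve over a line, parametrised by a one-dimensional group with the property `Q`. -/
def LineCurve2 {k : Type} [Field k] (Q : Src k → Prop) {n r g : ℕ} (m e : Fin r → ℕ)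
    (F : Fin r → MvPolynomial (Fin (n + 1)) k)
    (G : Fin g → MvPolynomial (Fin (n + 1)) k) : Prop :=
  ∃ p v : Fin (n + 1) → k, (∀ a b : k, (fun j => a * p j + b * v j) = 0 → a = 0 ∧ b = 0) ∧
    ∃ (s : Src k) (D : ℕ) (S T : s.Pt → k), Q s ∧ 0 < D ∧ Par s D S T ∧
      ∃ W : Fin r → s.Pt → k, (∀ i, s.Reg (D * e i) (W i)) ∧
      ∀ z, (∀ i, W i z ^ m i = eval (fun j => S z * p j + T z * v j) (F i)) ∧
        ∀ i, eval (fun j => S z * p j + T z * v j) (G i) = 0

end Pool.Agent.Helper23.CC
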