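import Pool.Agent.Helper23.CC.Defs

/-!
Statements of the parts.
-/

set_option autoImplicit false

namespace Pool.Agent.Helper23.CC

open MvPolynomial Pool.Agent.W600.Alg

/-- JAC: the Jacobian criterion at one point, with dual numbers. -/
def St_JAC : Prop :=
  ∀ (K : Type) [Field K] [CharZero K] (ι τ : Type) [Fintype ι] [DecidableEq ι]
    (Ψ : ι → MvPolynomial τ K) (x : τ → K) (v : ι → τ → K),
    (∀ i i', TrivSqZeroExt.snd (aeval (dual x (v i)) (Ψ i')) = if i' = i then 1 else 0) →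
    AlgebraicIndependent K Ψ

/-- NAT: base change, homogeneity and restriction to the line of the universal forms. -/
def St_NAT : Prop :=
  ∀ (N : ℕ) (A σ : Type) [Fintype σ] [DecidableEq A] (d : A → ℕ) (Z : Finset A) (own : σ → A)
    (mult : σ → ℕ),
    (∀ (R R' : Type) [CommRing R] [CommRing R'] (φ : R →+* R') (π : Tau N A σ → R) (a : A),
      map φ (FF d Z own mult π a) = FF d Z own mult (fun t => φ (π t)) a) ∧
    (∀ (R : Type) [CommRing R] (π : Tau N A σ → R) (a : A) (x y : R),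
      eval (fun l => x * lp π l + y * lq π l) (FF d Z own mult π a) =
        if a ∈ Z then 0 else ∏ s with own s = a,
          (π (.inr (.inl (.inl s))) * x + π (.inr (.inl (.inr s))) * y) ^ mult s) ∧
    ((∀ a, 1 ≤ d a) → (∀ a, a ∉ Z → ∑ s with own s = a, mult s = d a) →
      ∀ (R : Type) [CommRing R] (π : Tau N A σ → R) (a : A),
        (FF d Z own mult π a).IsHomogeneous (d a))

/-- CHAIN: columns for several blocks of polynomials of bounded degree and one block of residues. -/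
def St_CHAIN : Prop :=
  ∀ (K : Type) [Field K] (A : Type) [DecidableEq A] (d : A → ℕ) (Z : Finset A)
    (h : Polynomial K) (N : ℕ), (∀ a, 1 ≤ d a) → h.Monic →
    ∑ a ∈ Z, (d a + 1) + h.natDegree ≤ 2 * N →
    ∃ (B : A → Fin N → Polynomial K) (B0 : Fin N → Polynomial K),
      (∀ a ∈ Z, ∀ j, (B a j).degree < d a) ∧
      ∀ (f : A → Polynomial K) (f0 : Polynomial K), (∀ a ∈ Z, (f a).natDegree ≤ d a) →
        ∃ lam mu : Fin N → K,
          (∀ a ∈ Z, f a =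
            ∑ j, (Polynomial.C (lam j) * Polynomial.X + Polynomial.C (mu j)) * B a j) ∧
          h ∣ f0 - ∑ j, (Polynomial.C (lam j) * Polynomial.X + Polynomial.C (mu j)) * B0 j

/-- ALG: columns for all blocks. -/
def St_ALG : Prop :=
  ∀ (K : Type) [Field K] (A : Type) [Fintype A] [DecidableEq A] (d : A → ℕ) (Z : Finset A)
    (h : A → Polynomial K) (N : ℕ), (∀ a, 1 ≤ d a) →
    (∀ a, a ∉ Z → (h a).Monic ∧ (h a).natDegree ≤ d a) →
    (∀ a b, a ∉ Z → b ∉ Z → a ≠ b → IsCoprime (h a) (h b)) →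
    ∑ a ∈ Z, (d a + 1) + ∑ a ∈ Zᶜ, (h a).natDegree ≤ 2 * N →
    ∃ B : A → Fin N → Polynomial K, (∀ a j, (B a j).degree < d a) ∧
      ∀ f : A → Polynomial K, (∀ a, (f a).natDegree ≤ d a) → ∃ lam mu : Fin N → K,
        (∀ a ∈ Z, f a =
          ∑ j, (Polynomial.C (lam j) * Polynomial.X + Polynomial.C (mu j)) * B a j) ∧
        ∀ a, a ∉ Z → h a ∣ f a -
          ∑ j, (Polynomial.C (lam j) * Polynomial.X + Polynomial.C (mu j)) * B a j

/-- TAN: the tangent space of the products of powers of linear forms. -/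
def St_TAN : Prop :=
  ∀ (K : Type) [Field K] [CharZero K] (σ : Type) [DecidableEq σ] (S : Finset σ)
    (t : σ → K) (mult : σ → ℕ), Set.InjOn t S → S.Nonempty → (∀ s ∈ S, 1 ≤ mult s) →
    ∀ g : Polynomial K, g.natDegree ≤ S.card → ∃ al be : σ → K,
      (∏ s ∈ S, (Polynomial.X - Polynomial.C (t s)) ^ (mult s - 1)) * g =
        ∑ s ∈ S, (mult s : Polynomial K) *
          ((Polynomial.C (al s) * Polynomial.X + Polynomial.C (be s)) *
            (Polynomial.X - Polynomial.C (t s)) ^ (mult s - 1)) *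
          ∏ u ∈ S.erase s, (Polynomial.X - Polynomial.C (t u)) ^ mult u

/-- DUAL: the first-order expansion of the universal forms. -/
def St_DUAL : Prop :=
  ∀ (K : Type) [Field K] (N : ℕ) (A σ : Type) [Fintype σ] [DecidableEq σ] [DecidableEq A]
    (d : A → ℕ) (Z : Finset A) (own : σ → A) (mult : σ → ℕ) (x v : Tau N A σ → K) (a : A)
    (I : Fin (N + 2) →₀ ℕ),
    TrivSqZeroExt.snd (coeff I (FF d Z own mult (dual x v) a)) =
      coeff I (dFF d Z own mult x v a)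

/-- HZ: homogenisation. -/
def St_HZ : Prop :=
  ∀ (K : Type) [Field K] (N : ℕ),
    (∀ (d : ℕ) (f g : Polynomial K), hz N d (f + g) = hz N d f + hz N d g) ∧
    (∀ (d e : ℕ) (f g : Polynomial K), f.natDegree ≤ d → g.natDegree ≤ e →
      hz N (d + e) (f * g) = hz N d f * hz N e g) ∧
    (∀ a b : K, hz N 1 (Polynomial.C a * Polynomial.X + Polynomial.C b) = lf a b) ∧
    (∀ a : K, hz N 0 (Polynomial.C a) = C a) ∧
    (∀ (d : ℕ) (f : Polynomial K), (hz N d f).IsHomogeneous d) ∧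
    (∀ (σ : Type) [DecidableEq σ] (S : Finset σ) (f : σ → Polynomial K) (e : σ → ℕ),
      (∀ s ∈ S, (f s).natDegree ≤ e s) →
      hz N (∑ s ∈ S, e s) (∏ s ∈ S, f s) = ∏ s ∈ S, hz N (e s) (f s)) ∧
    ∀ (d : ℕ) (σ : Type) (S : Finset σ) (f : σ → Polynomial K),
      hz N d (∑ s ∈ S, f s) = ∑ s ∈ S, hz N d (f s)

/-- DEC: the decomposition of forms, and the cofactors. -/
def St_DEC : Prop :=
  (∀ (K : Type) [Field K] (N d : ℕ), 1 ≤ d → ∀ φ : MvPolynomial (Fin (N + 2)) K,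
    φ.IsHomogeneous d → ∃ (f : Polynomial K) (ψ : Fin N → MvPolynomial (Fin (N + 2)) K),
      f.natDegree ≤ d ∧ (∀ j, (ψ j).IsHomogeneous (d - 1)) ∧
      φ = hz N d f + ∑ j, X j.succ.succ * ψ j) ∧
  ∀ (K : Type) [Field K] (N : ℕ) (A : Type) (d : A → ℕ)
    (ψ : A → Fin N → MvPolynomial (Fin (N + 2)) K), (∀ a j, (ψ a j).IsHomogeneous (d a - 1)) →
    ∃ b : A × Fin N × (Fin (N + 2) →₀ ℕ) → K, ∀ a j, cof d b a j = ψ a j

/-- SURJ: the differential is surjective at a suitable point. -/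
def St_SURJ : Prop :=
  ∀ (K : Type) [Field K] [CharZero K] (N : ℕ) (A σ : Type) [Fintype A] [Fintype σ]
    [DecidableEq σ] [DecidableEq A] (d : A → ℕ) (Z : Finset A) (own : σ → A) (mult : σ → ℕ),
    (∀ a, 1 ≤ d a) → (∀ s, 1 ≤ mult s) →
    (∀ a, a ∉ Z → ∑ s with own s = a, mult s = d a) →
    ∑ a ∈ Z, (d a + 1) + ∑ a ∈ Zᶜ, (d a - (Finset.univ.filter fun s => own s = a).card) ≤ 2 * N →
    ∃ x : Tau N A σ → K, ∀ φ : A → MvPolynomial (Fin (N + 2)) K,
      (∀ a, (φ a).IsHomogeneous (d a)) → ∃ v : Tau N A σ → K, ∀ a,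
        dFF d Z own mult x v a = φ a

/-- GEN: the coefficients of the universal forms are algebraically independent. -/
def St_GEN : Prop :=
  ∀ (K : Type) [Field K] [CharZero K] (N : ℕ) (A σ : Type) [Fintype A] [Fintype σ]
    [DecidableEq σ] [DecidableEq A] (d : A → ℕ) (Z : Finset A) (own : σ → A) (mult : σ → ℕ),
    (∀ a, 1 ≤ d a) → (∀ s, 1 ≤ mult s) →
    (∀ a, a ∉ Z → ∑ s with own s = a, mult s = d a) →
    ∑ a ∈ Z, (d a + 1) + ∑ a ∈ Zᶜ, (d a - (Finset.univ.filter fun s => own s = a).card) ≤ 2 * N →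
    AlgebraicIndependent K fun p : (a : A) × {I : Fin (N + 2) →₀ ℕ // I.degree = d a} =>
      coeff p.2.1 (FF d Z own mult (fun t => (X t : MvPolynomial (Tau N A σ) K)) p.1)

/-- PLACE: a place that specialises independent elements to given values. -/
def St_PLACE : Prop :=
  ∀ (K Ω : Type) [Field K] [Field Ω] [Algebra K Ω] (ι : Type) (y : ι → Ω) (z : ι → K),
    AlgebraicIndependent K y →
    ∃ O : ValuationSubring Ω, (∀ c : K, algebraMap K Ω c ∈ O) ∧
      ∀ i, O.valuation (y i - algebraMap K Ω (z i)) < 1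

/-- NORM: normalisation of a line over a valuation ring. -/
def St_NORM : Prop :=
  ∀ (Ω : Type) [Field Ω] (O : ValuationSubring Ω) (n : ℕ) (P Q : Fin (n + 1) → Ω),
    (∀ x y : Ω, (∀ l, x * P l + y * Q l = 0) → x = 0 ∧ y = 0) →
    ∃ (P' Q' : Fin (n + 1) → Ω) (i j : Fin (n + 1)) (a b c e : Ω), a * e - b * c ≠ 0 ∧
      (∀ l, P' l = a * P l + b * Q l) ∧ (∀ l, Q' l = c * P l + e * Q l) ∧
      P' i = 1 ∧ P' j = 0 ∧ Q' i = 0 ∧ Q' j = 1 ∧ ∀ l, P' l ∈ O ∧ Q' l ∈ O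

/-- RED: reduction of a contact line modulo the maximal ideal of a valuation ring. -/
def St_RED : Prop :=
  ∀ (K Ω : Type) [Field K] [CharZero K] [Field Ω] [Algebra K Ω] (O : ValuationSubring Ω)
    (n : ℕ) (A σ : Type) [Fintype A] [Fintype σ] [DecidableEq A] (Z : Finset A) (own : σ → A)
    (mult : σ → ℕ) (H : A → MvPolynomial (Fin (n + 1)) Ω)
    (F : A → MvPolynomial (Fin (n + 1)) K) (P Q : Fin (n + 1) → Ω) (al be : σ → Ω),
    (∀ c : K, algebraMap K Ω c ∈ O) →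
    (∀ a I, O.valuation (coeff I (H a) - algebraMap K Ω (coeff I (F a))) < 1) →
    (∀ x y : Ω, (∀ l, x * P l + y * Q l = 0) → x = 0 ∧ y = 0) →
    (∀ s, al s ≠ 0 ∨ be s ≠ 0) →
    (∀ a (x y : Ω), eval (fun l => x * P l + y * Q l) (H a) =
      if a ∈ Z then 0 else ∏ s with own s = a, (al s * x + be s * y) ^ mult s) →
    ∃ (L : Type) (_ : Field L) (_ : Algebra K L), CLine K L Z own mult F

/-- DESC: descent of a contact line to an algebraically closed field. -/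
def St_DESC : Prop :=
  ∀ (K L : Type) [Field K] [IsAlgClosed K] [Field L] [Algebra K L] (n : ℕ) (A σ : Type)
    [Fintype A] [Fintype σ] [DecidableEq A] (Z : Finset A) (own : σ → A) (mult : σ → ℕ)
    (F : A → MvPolynomial (Fin (n + 1)) K),
    CLine K L Z own mult F → CLine K K Z own mult F

/-- CLT: the existence of lines of prescribed contact type, for all forms. -/
def St_CLT : Prop :=
  ∀ (K : Type) [Field K] [IsAlgClosed K] [CharZero K] (n : ℕ), 1 ≤ n → ∀ (A σ : Type) [Fintype A]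
    [Fintype σ] [DecidableEq σ] [DecidableEq A] (d : A → ℕ) (Z : Finset A) (own : σ → A)
    (mult : σ → ℕ) (F : A → MvPolynomial (Fin (n + 1)) K), (∀ a, (F a).IsHomogeneous (d a)) →
    (∀ a, 1 ≤ d a) → (∀ s, 1 ≤ mult s) →
    (∀ a, a ∉ Z → ∑ s with own s = a, mult s = d a) →
    ∑ a ∈ Z, (d a + 1) + ∑ a ∈ Zᶜ, (d a - (Finset.univ.filter fun s => own s = a).card) ≤
      2 * (n - 1) →
    CLine K K Z own mult F

/-- PATT: from patterns to curves (compare `Pool.Agent.W600.Alg.of_pattern`). -/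
def St_PATT : Prop :=
  ∀ (k : Type) [Field k] [IsAlgClosed k] [CharZero k] (Q : Src k → Prop) (n r g q : ℕ), 1 ≤ n →
    ∀ (m : Fin r → ℕ), (∀ i, m i ≠ 0) → ∀ (F : Fin r → MvPolynomial (Fin (n + 1)) k)
    (e : Fin r → ℕ), (∀ i, 0 < e i) → (∀ i, (F i).IsHomogeneous (m i * e i)) →
    ∀ (G : Fin g → MvPolynomial (Fin (n + 1)) k) (d : Fin g → ℕ), (∀ j, 1 ≤ d j) →
    (∀ i, (G i).IsHomogeneous (d i)) →
    ∀ (b : Fin q → Σ i : Fin r, Fin (e i)) (mult : (Σ i : Fin r, Fin (e i)) ⊕ Fin q → ℕ),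
    (∀ s, 0 < mult s) →
    ∑ i, (m i - 1) * e i + ∑ j, (d j + 1) ≤ 2 * (n - 1) + q →
    (∀ j, mult (Sum.inl j) + ∑ a, (if b a = j then mult (Sum.inr a) else 0) = m j.1) →
    (∀ c : (Σ i : Fin r, Fin (e i)) ⊕ Fin q → k, ∃ (s : Src k) (D : ℕ)
      (S T : s.Pt → k), Q s ∧ 0 < D ∧
      Par s D S T ∧ ∀ j, ∃ y : s.Pt → k, s.Reg D y ∧ ∀ z,
        y z ^ m j.1 = (S z + c (Sum.inl j) * T z) ^ mult (Sum.inl j) *
          ∏ a, (if b a = j then (S z + c (Sum.inr a) * T z) ^ mult (Sum.inr a) else 1)) →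
    LineCurve2 Q m e F G

/-- CASES: curves of genus at most one (compare `Pool.Agent.W600.Alg.line_closed`). -/
def St_CASES : Prop :=
  ∀ (k : Type) [Field k] [IsAlgClosed k] [CharZero k] (Q : Src k → Prop) (n r g : ℕ), 1 ≤ n →
    ∀ (m : Fin r → ℕ), (∀ i, 2 ≤ m i) → ∀ (F : Fin r → MvPolynomial (Fin (n + 1)) k)
    (e : Fin r → ℕ), (∀ i, 0 < e i) → (∀ i, (F i).IsHomogeneous (m i * e i)) →
    ∀ (G : Fin g → MvPolynomial (Fin (n + 1)) k) (d : Fin g → ℕ), (∀ j, 1 ≤ d j) →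
    (∀ i, (G i).IsHomogeneous (d i)) → (∀ a b h, Q (Src.ell a b h)) →
    ∑ i, (m i - 1) * e i + ∑ j, (d j + 1) ≤ 2 * n →
    (∑ i, (m i - 1) * e i + ∑ j, (d j + 1) = 2 * n →
      (∃ i, 3 ∣ m i ∨ 4 ∣ m i) ∨ 2 ≤ ∑ i with 2 ∣ m i, e i) →
    (∑ i, (m i - 1) * e i + ∑ j, (d j + 1) = 2 * n - 1 → 0 < r) →
    LineCurve2 Q m e F G

/-- NEG: a curve parametrised by an elliptic curve contradicts both properties (compare
`Pool.Agent.W600.Alg.not_arith`). -/
def St_NEG : Prop :=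
  ∀ (k : Type) [Field k] [IsAlgClosed k] [CharZero k] (n r g : ℕ) (m e : Fin r → ℕ)
    (F : Fin r → MvPolynomial (Fin (n + 1)) k) (G : Fin g → MvPolynomial (Fin (n + 1)) k),
    LineCurve2 (fun s => ∃ a b h, s = Src.ell a b h) m e F G →
    ¬ Groupless e (Pts m F G 1) ∧ ¬ ArithHyp m e F G

/-- FIN: the theorem. -/
def St_FIN : Prop :=
  ∀ (k : Type) [Field k] [IsAlgClosed k] [CharZero k] (n r g : ℕ), 1 ≤ n →
    ∀ (m : Fin r → ℕ), (∀ i, 2 ≤ m i) → ∀ (F : Fin r → MvPolynomial (Fin (n + 1)) k)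
    (e : Fin r → ℕ), (∀ i, 0 < e i) → (∀ i, (F i).IsHomogeneous (m i * e i)) →
    ∀ (G : Fin g → MvPolynomial (Fin (n + 1)) k) (d : Fin g → ℕ), (∀ j, 1 ≤ d j) →
    (∀ i, (G i).IsHomogeneous (d i)) →
    ∑ i, (m i - 1) * e i + ∑ j, (d j + 1) ≤ 2 * n →
    (∑ i, (m i - 1) * e i + ∑ j, (d j + 1) = 2 * n →
      (∃ i, 3 ∣ m i ∨ 4 ∣ m i) ∨ 2 ≤ ∑ i with 2 ∣ m i, e i) →
    (∑ i, (m i - 1) * e i + ∑ j, (d j + 1) = 2 * n - 1 → 0 < r) →
    ¬ Groupless e (Pts m F G 1) ∧ ¬ ArithHyp m e F G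

theorem fin_of (h1 : St_CASES) (h2 : St_NEG) : St_FIN := by
  intro k _ _ _ n r g hn m hm F e he hF G d hd hG hK h0 h0'
  exact h2 k n r g m e F G (h1 k _ n r g hn m hm F e he hF G d hd hG
    (fun a b h => ⟨a, b, h, rfl⟩) hK h0 h0')

end Pool.Agent.Helper23.CC
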