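import Pool.Agent.Helper1.CC.CRT
import Pool.Agent.Helper15.CC.DUAL
import Pool.Agent.Helper15.CC.GEN
import Pool.Agent.Helper15.CC.NAT
import Pool.Agent.Helper44.CC.DESC
import Pool.Agent.Helper46.CC.CASES
import Pool.Agent.Helper46.CC.PATT
import Pool.Agent.Helper53.CC.CLT
import Pool.Agent.Helper53.CC.NORM
import Pool.Agent.Helper53.CC.PLACE
import Pool.Agent.Helper70.CC.DEC
import Pool.Agent.Helper70.CC.HZ
import Pool.Agent.Helper70.CC.JAC
import Pool.Agent.Helper72.CC.Surj
import Pool.Agent.Helper72.CC.Tan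
import Pool.Agent.Helper75.CC.CHAIN
import Pool.Agent.Helper75.CC.RED
import Pool.Agent.Helper23.CC.AG

/-!
Assembly.
-/

set_option autoImplicit false

namespace Pool.Agent.Helper23.CC

theorem full_gen : St_GEN :=
  Pool.Agent.Helper15.CC.gen Pool.Agent.Helper70.CC.jac Pool.Agent.Helper15.CC.nat
    Pool.Agent.Helper15.CC.dual' (Pool.Agent.Helper72.CC.surj
      (crt Pool.Agent.Helper75.CC.chain) Pool.Agent.Helper72.CC.tan
      Pool.Agent.Helper70.CC.hz' Pool.Agent.Helper70.CC.dec)

theorem full_clt : St_CLT :=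
  Helper53.clt full_gen Pool.Agent.Helper15.CC.nat Helper53.place
    (Pool.Agent.Helper75.CC.red Helper53.norm) Pool.Agent.Helper44.CC.Desc.desc

theorem full_patt : St_PATT := Pool.Agent.Helper46.CC.patt full_clt

theorem full_fin : St_FIN := fin_of (Pool.Agent.Helper46.CC.cases' full_patt) neg

end Pool.Agent.Helper23.CC
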