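import Pool.Agent.Helper23.CC.Spec2

/-!
The degrees of the curves in generic covers.
-/

set_option autoImplicit false

namespace Pool.Agent.Helper23.CC

open MvPolynomial Pool.Agent.W600.Alg Pool.Agent.Helper53K9.CC FF Pool.Agent.W603.LV
  Pool.Agent.W603.PV

theorem gcurve : St_GCURVE := by
  classical
  intro k K _ _ _ _ _ n r g m e F G d hm hF hG hgen L _ _ _ x z hx hz hxG
  have hH : ∀ a, (Sum.elim F G a).IsHomogeneous (dg m e d a) := by
    rintro (i | j)
    · exact hF i
    · exact hG j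
  obtain ⟨I0, hI0⟩ : ∃ I0 : Fin r ⊕ Fin g → Fin (n + 1) →₀ ℕ, ∀ a, (I0 a).degree = dg m e d a :=
    ⟨fun a => Finsupp.single 0 (dg m e d a), fun a => Finsupp.degree_single _ _⟩
  have hgen' : AlgebraicIndependent k
    fun p : (a : Fin r ⊕ Fin g) × {I : Fin (n + 1) →₀ ℕ // I.degree = dg m e d a} =>
      (Sum.elim F G p.1).coeff p.2.1 := hgen
  have h0 : ∀ a, (Sum.elim F G a).coeff (I0 a) ≠ 0 := fun a => hgen'.ne_zero ⟨a, ⟨I0 a, hI0 a⟩⟩
  have hind := Pool.Agent.Y735.LE.indep_ratio I0 hI0 hgen'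
  let C : Finset (Fin r ⊕ Fin g) := Finset.univ.map ⟨Sum.inr, Sum.inr_injective⟩
  have hCl : ∀ i, (Sum.inl i : Fin r ⊕ Fin g) ∉ C := by
    intro i
    simp [C]
  have hCr : ∀ j, (Sum.inr j : Fin r ⊕ Fin g) ∈ C := by
    intro j
    simp [C]
  have key := curve_cover (k := k) (m := n) (q := Sum.elim m fun _ => 1)
    (s := Sum.elim e fun _ => 0) (d := dg m e d) C (by
      rintro (i | j) ha
      · exact hm i
      · exact absurd (hCr j) ha) (by
      rintro (i | j) ha
      · rfl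
      · exact absurd (hCr j) ha) (∅ : Set (MvPolynomial (Fin (n + 1)) (algebraicClosure k K)))
    (fun f hf => absurd hf (Set.notMem_empty f))
    (Pool.Agent.TH145.GC.dimLE_univ _ n) (Sum.elim F G) hH I0 h0 hind x
    (Sum.elim z fun _ => 0) hx (by
      refine ⟨fun f hf => ?_, ?_, ?_⟩
      · rw [Set.image_empty] at hf
        exact absurd hf (Set.notMem_empty f)
      · rintro (i | j) ha
        · exact absurd ha (hCl i)
        · exact ⟨rfl, hxG j⟩
      · rintro (i | j) ha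
        · exact hz i
        · exact absurd (hCr j) ha)
  have h2 : C.card = g := by simp [C]
  have h3 : ∑ i, m i * e i = ∑ i, (m i - 1) * e i + ∑ i, e i := by
    rw [← Finset.sum_add_distrib]
    refine Finset.sum_congr rfl fun i _ => ?_
    obtain ⟨m', hm'⟩ : ∃ m', m i = m' + 1 := ⟨m i - 1, by have := hm i; omega⟩
    rw [hm', Nat.add_sub_cancel]
    ring
  have h4 : ∑ a, dg m e d a = ∑ i, (m i - 1) * e i + ∑ i, e i + ∑ j, d j := by
    rw [Fintype.sum_sum_type, ← h3]
    rfl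
  have h5 : ∀ inst : DecidablePred fun a => a ∉ C,
      ∑ a ∈ @Finset.filter (Fin r ⊕ Fin g) (fun a => a ∉ C) inst Finset.univ,
      (Sum.elim e fun _ => 0 : Fin r ⊕ Fin g → ℕ) a = ∑ i, e i := by
    intro inst
    have h1 : @Finset.filter (Fin r ⊕ Fin g) (fun a => a ∉ C) inst Finset.univ =
        Finset.univ.map ⟨Sum.inl, Sum.inl_injective⟩ := by
      ext a
      rcases a with i | j
      · simp [C]
      · simp [C]
    rw [h1, Finset.sum_map]
    rfl
  have h6 : ∑ j, (d j + 1) = ∑ j, d j + g := by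
    rw [Finset.sum_add_distrib, Finset.sum_const, smul_eq_mul, mul_one, Finset.card_univ,
      Fintype.card_fin]
  rw [h5, h4, h2] at key
  rw [h6]
  have h7 : (((∑ i, (m i - 1) * e i + ∑ i, e i + ∑ j, d j : ℕ) : ℤ) + (g : ℤ) -
      ((∑ i, e i : ℕ) : ℤ) - 2 * n) =
      (((∑ i, (m i - 1) * e i + (∑ j, d j + g) : ℕ) : ℤ) - 2 * n) := by
    push_cast
    ring
  rw [← h7]
  exact key

end Pool.Agent.Helper23.CC
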