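import Pool.Agent.Helper23.CC.AG
import Pool.Graph.R_pool_sql_team_seeded_1e53cb71.Results.MP_c7af3c_ag.GenericCyclicCovers
import Pool.Graph.R_seed8.Y735.LE.LineF
import Pool.Graph.R_seed8.TH145.GC.Main

/-!
Generic fibre products of cyclic covers of complete intersections.
-/

set_option autoImplicit false

namespace Pool.Agent.Helper23.CC

open MvPolynomial Pool.Agent.W600.Alg Pool.Agent.Helper53K9.CC

variable {k K : Type} [Field k] [Field K] [IsAlgClosed K] [CharZero K] [Algebra k K] {n r g : ℕ}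

/-- The degrees of the forms. -/
def dg (m e : Fin r → ℕ) (d : Fin g → ℕ) : Fin r ⊕ Fin g → ℕ := Sum.elim (fun i => m i * e i) d

theorem gah {m e : Fin r → ℕ} (hm : ∀ i, 0 < m i)
    {F : Fin r → MvPolynomial (Fin (n + 1)) K} (hF : ∀ i, (F i).IsHomogeneous (m i * e i))
    {G : Fin g → MvPolynomial (Fin (n + 1)) K} {d : Fin g → ℕ} (hG : ∀ j, (G j).IsHomogeneous (d j))
    (hgen : AlgebraicIndependent k
      fun p : (a : Fin r ⊕ Fin g) × {I : Fin (n + 1) →₀ ℕ // I.degree = dg m e d a} =>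
        (Sum.elim F G p.1).coeff p.2.1)
    (hS : 2 * n + 2 ≤ ∑ i, (m i - 1) * e i + ∑ j, (d j + 1)) : ArithHyp m e F G := by
  classical
  have hH : ∀ a, (Sum.elim F G a).IsHomogeneous (dg m e d a) := by
    rintro (i | j)
    · exact hF i
    · exact hG j
  obtain ⟨I0, hI0⟩ : ∃ I0 : Fin r ⊕ Fin g → Fin (n + 1) →₀ ℕ, ∀ a, (I0 a).degree = dg m e d a :=
    ⟨fun a => Finsupp.single 0 (dg m e d a), fun a => Finsupp.degree_single _ _⟩
  have h0 : ∀ a, (Sum.elim F G a).coeff (I0 a) ≠ 0 := fun a => hgen.ne_zero ⟨a, ⟨I0 a, hI0 a⟩⟩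
  have hind := Pool.Agent.Y735.LE.indep_ratio I0 hI0 hgen
  let C : Finset (Fin r ⊕ Fin g) := Finset.univ.map ⟨Sum.inr, Sum.inr_injective⟩
  have hCl : ∀ i, (Sum.inl i : Fin r ⊕ Fin g) ∉ C := by
    intro i
    simp [C]
  have hCr : ∀ j, (Sum.inr j : Fin r ⊕ Fin g) ∈ C := by
    intro j
    simp [C]
  obtain ⟨hfin, -⟩ := Pool.Agent.Results.MP_c7af3c_ag.GenericCyclicCovers.result
    (k := k) (m := n) (∅ : Set (MvPolynomial (Fin (n + 1)) (algebraicClosure k K)))
    (fun f hf => absurd hf (Set.notMem_empty f))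
    (Pool.Agent.TH145.GC.dimLE_univ _ n) C (dg m e d) (Sum.elim m fun _ => 1)
    (Sum.elim e fun _ => 0) (by
      rintro (i | j) ha
      · exact hm i
      · exact absurd (hCr j) ha) (by
      rintro (i | j) ha
      · rfl
      · exact absurd (hCr j) ha) (by
      have h1 : Cᶜ = Finset.univ.map ⟨Sum.inl, Sum.inl_injective⟩ := by
        ext a
        rcases a with i | j
        · simp [C]
        · simp [C]
      rw [h1, Finset.sum_map, Fintype.sum_sum_type]
      have h2 : C.card = g := by simp [C]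
      rw [h2]
      simp only [Function.Embedding.coeFn_mk, Sum.elim_inl, dg, Sum.elim_inr]
      rw [Finset.sum_add_distrib, Finset.sum_const, smul_eq_mul, mul_one, Finset.card_univ,
        Fintype.card_fin] at hS
      have h3 : ∑ i, m i * e i = ∑ i, (m i - 1) * e i + ∑ i, e i := by
        rw [← Finset.sum_add_distrib]
        refine Finset.sum_congr rfl fun i _ => ?_
        obtain ⟨m', hm'⟩ : ∃ m', m i = m' + 1 := ⟨m i - 1, by have := hm i; omega⟩
        rw [hm', Nat.add_sub_cancel]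
        ring
      omega) (Sum.elim F G) hH I0 h0 hind
  intro s hsF hsG
  choose Z hZ using fun l => (hfin s l).exists_finset_coe
  refine ⟨Finset.univ.biUnion fun l => (Z l).image fun p => (p.1, fun i => p.2 (Sum.inl i)),
    fun P hP => ?_⟩
  obtain ⟨⟨hP0, hPw, hPG, -⟩, ⟨hPA, -⟩, hPA2⟩ := hP
  obtain ⟨l, hl⟩ : ∃ l, P.1 l ≠ 0 := by
    by_contra hcon
    push Not at hcon
    exact hP0 (funext hcon)
  have hmem : ∀ x ∈ Subring.closure (s : Set K),
      x ∈ IntermediateField.adjoin (algebraicClosure k K) (s : Set K) := by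
    intro x hx
    have h7 : Subring.closure (s : Set K) ≤ (IntermediateField.adjoin (algebraicClosure k K)
        (s : Set K)).toSubfield.toSubring :=
      Subring.closure_le.2 (IntermediateField.subset_adjoin _ _)
    exact h7 hx
  let p : (Fin (n + 1) → K) × (Fin r ⊕ Fin g → K) :=
    (fun j => (P.1 l)⁻¹ * P.1 j, Sum.elim (fun i => (P.1 l)⁻¹ ^ e i * P.2 i) fun _ => 0)
  have hp : p ∈ {p : (Fin (n + 1) → K) × (Fin r ⊕ Fin g → K) | p.1 l = 1 ∧
      (∀ i, p.1 i ∈ IntermediateField.adjoin (algebraicClosure k K) (s : Set K)) ∧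
      (∀ a, p.2 a ∈ IntermediateField.adjoin (algebraicClosure k K) (s : Set K)) ∧
      OnCover (map (algebraMap (algebraicClosure k K) K) ''
        (∅ : Set (MvPolynomial (Fin (n + 1)) (algebraicClosure k K)))) (Sum.elim F G)
        (Sum.elim m fun _ => 1) C p.1 p.2} := by
    refine ⟨inv_mul_cancel₀ hl, fun i => mul_mem (inv_mem (hmem _ (hPA l))) (hmem _ (hPA i)),
      ?_, ?_, ?_, ?_⟩
    · rintro (i | j)
      · exact mul_mem (pow_mem (inv_mem (hmem _ (hPA l))) _) (hmem _ (hPA2 i))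
      · exact zero_mem _
    · intro f hf
      rw [Set.image_empty] at hf
      exact absurd hf (Set.notMem_empty f)
    · rintro (i | j) ha
      · exact absurd ha (hCl i)
      · refine ⟨rfl, ?_⟩
        show eval (fun j => (P.1 l)⁻¹ * P.1 j) (G j) = 0
        rw [eval_scale (hG j), hPG, mul_zero]
    · rintro (i | j) ha
      · show ((P.1 l)⁻¹ ^ e i * P.2 i) ^ m i = eval (fun j => (P.1 l)⁻¹ * P.1 j) (F i)
        rw [eval_scale (hF i), mul_pow, hPw, ← pow_mul, mul_comm (e i)]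
      · exact absurd (hCr j) ha
  rw [← hZ l] at hp
  refine ⟨(p.1, fun i => p.2 (Sum.inl i)), ?_, P.1 l, hl, fun j => ?_, fun i => ?_⟩
  · rw [Finset.mem_biUnion]
    exact ⟨l, Finset.mem_univ _, Finset.mem_image.2 ⟨p, hp, rfl⟩⟩
  · show P.1 j = P.1 l * ((P.1 l)⁻¹ * P.1 j)
    field_simp
  · show P.2 i = P.1 l ^ e i * ((P.1 l)⁻¹ ^ e i * P.2 i)
    rw [← mul_assoc, ← mul_pow, mul_inv_cancel₀ hl, one_pow, one_mul]

end Pool.Agent.Helper23.CC
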