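import Pool.Agent.Helper23.CC.Gen
import Pool.Graph.R_seed8.Y735.EL.Dup
import Pool.Graph.R_seed8.Y735.EL.Curves

/-!
Second batch of statements: generic covers.
-/

set_option autoImplicit false

namespace Pool.Agent.Helper23.CC

open MvPolynomial Pool.Agent.W600.Alg FF Pool.Agent.W603.LV Pool.Agent.W603.PV

/-- Every morphism from the affine line to `X` is constant, that is, `X` contains no rational
curve. -/
def Ratless {k : Type} [Field k] {n r : ℕ} (e : Fin r → ℕ)
    (X : Set ((Fin (n + 1) → k) × (Fin r → k))) : Prop :=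
  ∀ (D : ℕ) (f : (Src.ga : Src k).Pt → (Fin (n + 1) → k) × (Fin r → k)), IsMor e Src.ga D f →
    (∀ t, f t ∈ X) → ∀ t t', Same e (f t) (f t')

/-- The coefficients of all the forms are algebraically independent over `k`. -/
def Generic (k K : Type) [Field k] [Field K] [Algebra k K] {n r g : ℕ} (m e : Fin r → ℕ)
    (d : Fin g → ℕ) (F : Fin r → MvPolynomial (Fin (n + 1)) K)
    (G : Fin g → MvPolynomial (Fin (n + 1)) K) : Prop :=
  AlgebraicIndependent k
    fun p : (a : Fin r ⊕ Fin g) × {I : Fin (n + 1) →₀ ℕ // I.degree = dg m e d a} =>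
      (Sum.elim F G p.1).coeff p.2.1

/-- GA: rational curves in all covers (compare helper46's CASES, with `ga_const` and `ga_rat` in
place of `ell_const` and `ell_rat`). -/
def St_GA : Prop :=
  ∀ (k : Type) [Field k] [IsAlgClosed k] [CharZero k] (n r g : ℕ), 1 ≤ n →
    ∀ (m : Fin r → ℕ), (∀ i, 2 ≤ m i) → ∀ (F : Fin r → MvPolynomial (Fin (n + 1)) k)
    (e : Fin r → ℕ), (∀ i, 0 < e i) → (∀ i, (F i).IsHomogeneous (m i * e i)) →
    ∀ (G : Fin g → MvPolynomial (Fin (n + 1)) k) (d : Fin g → ℕ), (∀ j, 1 ≤ d j) →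
    (∀ i, (G i).IsHomogeneous (d i)) →
    ∑ i, (m i - 1) * e i + ∑ j, (d j + 1) ≤ 2 * n - 1 →
    (∑ i, (m i - 1) * e i + ∑ j, (d j + 1) = 2 * n - 1 → 0 < r) →
    ¬ Ratless e (Pts m F G 1)

/-- GCURVE: the degrees of the curves in generic covers. -/
def St_GCURVE : Prop :=
  ∀ (k K : Type) [Field k] [Field K] [IsAlgClosed K] [CharZero K] [Algebra k K] (n r g : ℕ)
    (m e : Fin r → ℕ) (F : Fin r → MvPolynomial (Fin (n + 1)) K)
    (G : Fin g → MvPolynomial (Fin (n + 1)) K) (d : Fin g → ℕ), (∀ i, 0 < m i) →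
    (∀ i, (F i).IsHomogeneous (m i * e i)) → (∀ j, (G j).IsHomogeneous (d j)) →
    Generic k K m e d F G →
    ∀ (L : Type) [Field L] [Algebra K L] [IsFF K L] (x : Fin (n + 1) → L) (z : Fin r → L),
      (∃ i j, x j ≠ 0 ∧ x i / x j ∉ Set.range (algebraMap K L)) →
      (∀ i, z i ^ m i = aeval x (F i)) → (∀ j, aeval x (G j) = 0) →
      (((∑ i, (m i - 1) * e i + ∑ j, (d j + 1) : ℕ) : ℤ) - 2 * n) * pht K x ≤ canDeg K L

/-- NORAT: generic covers of large degree contain no rational curves. (Use `L = RatFunc K`,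
`Pool.Agent.W619.PQ.canDeg_rational`, see `no_line_of_genusOne` in Y735/EL/Curves.lean.) -/
def St_NORAT : Prop :=
  ∀ (k K : Type) [Field k] [Field K] [IsAlgClosed K] [CharZero K] [Algebra k K] (n r g : ℕ)
    (m e : Fin r → ℕ) (F : Fin r → MvPolynomial (Fin (n + 1)) K)
    (G : Fin g → MvPolynomial (Fin (n + 1)) K) (d : Fin g → ℕ), (∀ i, 0 < m i) →
    (∀ i, (F i).IsHomogeneous (m i * e i)) → (∀ j, (G j).IsHomogeneous (d j)) →
    Generic k K m e d F G → 2 * n ≤ ∑ i, (m i - 1) * e i + ∑ j, (d j + 1) →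
    Ratless e (Pts m F G 1)

/-- WEI: the function field of an elliptic curve. -/
def St_WEI : Prop :=
  ∀ (K : Type) [Field K] [IsAlgClosed K] [CharZero K] (a b : K), 4 * a ^ 3 + 27 * b ^ 2 ≠ 0 →
    ∃ (L : Type) (_ : Field L) (_ : Algebra K L) (_ : IsFF K L) (x y : L), Transcendental K x ∧
      y ^ 2 = x ^ 3 + algebraMap K L a * x + algebraMap K L b ∧
      (∀ f : L, ∃ r s : MvPolynomial (Fin 2) K, f = aeval ![x, y] r / aeval ![x, y] s) ∧
      (∀ p : MvPolynomial (Fin 2) K,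
        (∀ u v : K, v ^ 2 = u ^ 3 + a * u + b → eval ![u, v] p = 0) ↔ aeval ![x, y] p = 0)

/-- GRP: generic covers of large degree are groupless. (The function field of the elliptic curve is
given by WEI; with the duplication `φ` (Y735/EL/Dup.lean: `hgt_dup`, `exists_endo`, `hgt_hom`) the
points `φ^M (x)` have heights `N ^ M`, `2 ≤ N`, and by GCURVE bounded heights.) -/
def St_GRP : Prop :=
  ∀ (k K : Type) [Field k] [Field K] [IsAlgClosed K] [CharZero K] [Algebra k K] (n r g : ℕ)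
    (m e : Fin r → ℕ) (F : Fin r → MvPolynomial (Fin (n + 1)) K)
    (G : Fin g → MvPolynomial (Fin (n + 1)) K) (d : Fin g → ℕ), (∀ i, 0 < m i) →
    (∀ i, (F i).IsHomogeneous (m i * e i)) → (∀ j, (G j).IsHomogeneous (d j)) →
    Generic k K m e d F G → 2 * n + 1 ≤ ∑ i, (m i - 1) * e i + ∑ j, (d j + 1) →
    Groupless e (Pts m F G 1)

end Pool.Agent.Helper23.CC
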