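import Pool.Agent.Helper23.CC.Spec2

/-!
The function field of an elliptic curve.
-/

set_option autoImplicit false

namespace Pool.Agent.Helper23.CC

open MvPolynomial Pool.Agent.W600.Alg FF Pool.Agent.W603.LV Pool.Agent.W603.PV

/-- Polynomials on the curve in any algebra. -/
theorem exists_ab2 {K : Type} [Field K] (a b : K) (p : MvPolynomial (Fin 2) K) :
    ∃ α β : Polynomial K, ∀ (R : Type) [CommRing R] [Algebra K R] (x y : R),
      y ^ 2 = x ^ 3 + algebraMap K R a * x + algebraMap K R b →
      aeval ![x, y] p = Polynomial.aeval x α + y * Polynomial.aeval x β := by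
  induction p using MvPolynomial.induction_on with
  | C c => exact ⟨Polynomial.C c, 0, fun R _ _ x y _ => by simp⟩
  | add p q hp hq =>
    obtain ⟨α, β, H⟩ := hp
    obtain ⟨α', β', H'⟩ := hq
    refine ⟨α + α', β + β', fun R _ _ x y hxy => ?_⟩
    rw [map_add, H R x y hxy, H' R x y hxy, map_add, map_add]
    ring
  | mul_X p i hp =>
    obtain ⟨α, β, H⟩ := hp
    fin_cases i
    · refine ⟨α * Polynomial.X, β * Polynomial.X, fun R _ _ x y hxy => ?_⟩
      simp only [map_mul, H R x y hxy, aeval_X, Polynomial.aeval_X]
      simp only [Fin.zero_eta, Matrix.cons_val]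
      ring
    · refine ⟨β * (Polynomial.X ^ 3 + Polynomial.C a * Polynomial.X + Polynomial.C b), α,
        fun R _ _ x y hxy => ?_⟩
      simp only [map_mul, H R x y hxy, aeval_X, map_add, map_pow, Polynomial.aeval_X,
        Polynomial.aeval_C, ← hxy]
      simp only [Fin.mk_one, Matrix.cons_val]
      ring

theorem wei : St_WEI := by
  classical
  intro K _ _ _ a b hab
  have hinf : Infinite K := IsAlgClosed.instInfinite
  let M := RatFunc K
  let Ω := AlgebraicClosure M
  let X0 : M := RatFunc.X
  let c : M := X0 ^ 3 + algebraMap K M a * X0 + algebraMap K M b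
  obtain ⟨y0, hy0⟩ := IsAlgClosed.exists_pow_nat_eq (algebraMap M Ω c) (n := 2) two_pos
  let L : IntermediateField M Ω := IntermediateField.adjoin M {y0}
  have hfd : FiniteDimensional M L := by
    refine IntermediateField.adjoin.finiteDimensional ?_
    exact (Algebra.IsAlgebraic.isAlgebraic y0).isIntegral
  have hff : IsFF K M := Pool.Agent.W603.CX.isFF_ratFunc
  have hst : IsScalarTower K M L := inferInstance
  have hffL : IsFF K L := isFF_of_finite (k := K) (F := M)
  let x : L := algebraMap M L X0
  let y : L := ⟨y0, IntermediateField.mem_adjoin_simple_self M y0⟩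
  have hx : Transcendental K x :=
    (transcendental_algebraMap_iff (algebraMap M L).injective).2 RatFunc.transcendental_X
  have hxy : y ^ 2 = x ^ 3 + algebraMap K L a * x + algebraMap K L b := by
    apply Subtype.ext
    show y0 ^ 2 = _
    rw [hy0]
    have h1 : algebraMap M L c = x ^ 3 + algebraMap K L a * x + algebraMap K L b := by
      show algebraMap M L (X0 ^ 3 + algebraMap K M a * X0 + algebraMap K M b) = _
      rw [map_add, map_add, map_mul, map_pow, ← IsScalarTower.algebraMap_apply,
        ← IsScalarTower.algebraMap_apply]
    rw [← h1]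
    rfl
  refine ⟨L, inferInstance, inferInstance, hffL, x, y, hx, hxy, ?_, ?_⟩
  · -- the generators
    obtain ⟨T, hT⟩ : ∃ T : IntermediateField K L, T = IntermediateField.adjoin K
      (Set.range ![x, y]) := ⟨_, rfl⟩
    have hxT : x ∈ T := by
      rw [hT]
      exact IntermediateField.subset_adjoin _ _ ⟨0, rfl⟩
    have hyT : y ∈ T := by
      rw [hT]
      exact IntermediateField.subset_adjoin _ _ ⟨1, rfl⟩
    have hMT : ∀ u : M, algebraMap M L u ∈ T := by
      intro u
      have h1 : IntermediateField.adjoin K {X0} ≤ T.comap (IsScalarTower.toAlgHom K M L) := by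
        rw [IntermediateField.adjoin_le_iff]
        rintro _ rfl
        exact hxT
      have h2 : u ∈ IntermediateField.adjoin K {X0} := by
        have : IntermediateField.adjoin K {X0} = ⊤ := RatFunc.adjoin_X
        rw [this]
        exact IntermediateField.mem_top
      exact h1 h2
    have hall : ∀ f : L, f ∈ T := by
      rintro ⟨f, hf⟩
      have h3 : ∀ f (hf : f ∈ IntermediateField.adjoin M {y0}), (⟨f, hf⟩ : L) ∈ T := by
        intro f hf
        induction hf using IntermediateField.adjoin_induction with
        | mem z hz =>
          have : z = y0 := hz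
          subst this
          exact hyT
        | algebraMap z => exact hMT z
        | add z w hz hw h1 h2 => exact add_mem h1 h2
        | inv z hz h1 => exact inv_mem h1
        | mul z w hz hw h1 h2 => exact mul_mem h1 h2
      exact h3 f hf
    intro f
    have h4 := hall f
    rw [hT] at h4
    exact (IntermediateField.mem_adjoin_range_iff K ![x, y] f).1 h4
  · intro p
    obtain ⟨α, β, H⟩ := exists_ab2 a b p
    have hev : ∀ u v : K, v ^ 2 = u ^ 3 + a * u + b →
        eval ![u, v] p = α.eval u + v * β.eval u := by
      intro u v huv
      have := H K u v huv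
      rw [Polynomial.aeval_def, Polynomial.aeval_def] at this
      exact this
    have h2 : (2 : K) ≠ 0 := two_ne_zero
    constructor
    · intro hp
      have h3 : ∀ u, α.eval u = 0 ∧ (u ^ 3 + a * u + b = 0 ∨ β.eval u = 0) := by
        intro u
        obtain ⟨v, hv⟩ := IsAlgClosed.exists_pow_nat_eq (u ^ 3 + a * u + b) (n := 2) two_pos
        have e1 := hp u v hv
        have e2 := hp u (-v) (by rw [neg_sq]; exact hv)
        rw [hev u v hv] at e1
        rw [hev u (-v) (by rw [neg_sq]; exact hv)] at e2
        have e3 : 2 * α.eval u = 0 := by linear_combination e1 + e2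
        have e4 : α.eval u = 0 := (mul_eq_zero.1 e3).resolve_left h2
        refine ⟨e4, ?_⟩
        rw [e4, zero_add] at e1
        rcases mul_eq_zero.1 e1 with e5 | e5
        · left
          rw [← hv, e5]
          ring
        · exact Or.inr e5
      have hα : α = 0 := Polynomial.funext fun u => by
        rw [(h3 u).1, Polynomial.eval_zero]
      have hβ : β = 0 := by
        have h4 : β * (Polynomial.X ^ 3 + Polynomial.C a * Polynomial.X + Polynomial.C b) = 0 :=
          Polynomial.funext fun u => by
            rw [Polynomial.eval_mul, Polynomial.eval_zero]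
            rcases (h3 u).2 with h5 | h5
            · have : Polynomial.eval u (Polynomial.X ^ 3 + Polynomial.C a * Polynomial.X +
                  Polynomial.C b) = u ^ 3 + a * u + b := by simp
              rw [this, h5, mul_zero]
            · rw [h5, zero_mul]
        refine (mul_eq_zero.1 h4).resolve_right fun h5 => ?_
        have h6 : (Polynomial.X ^ 3 + Polynomial.C a * Polynomial.X + Polynomial.C b :
          Polynomial K).coeff 3 = 1 := by
          simp
        rw [h5, Polynomial.coeff_zero] at h6
        exact zero_ne_one h6
      rw [H L x y hxy, hα, hβ, map_zero, mul_zero, add_zero]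
    · intro hp u v huv
      rw [H L x y hxy] at hp
      have hβ : β = 0 := by
        by_contra hβ
        have h3 : Polynomial.aeval x (α ^ 2 - (Polynomial.X ^ 3 + Polynomial.C a * Polynomial.X +
            Polynomial.C b) * β ^ 2) = 0 := by
          simp only [map_sub, map_mul, map_pow, map_add, Polynomial.aeval_X, Polynomial.aeval_C]
          rw [← hxy]
          linear_combination (Polynomial.aeval x α - y * Polynomial.aeval x β) * hp
        have h4 : α ^ 2 - (Polynomial.X ^ 3 + Polynomial.C a * Polynomial.X +
            Polynomial.C b) * β ^ 2 = 0 := by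
          by_contra h5
          exact hx ⟨_, h5, h3⟩
        have h5 : (Polynomial.X ^ 3 + Polynomial.C a * Polynomial.X +
            Polynomial.C b : Polynomial K).natDegree = 3 := by compute_degree!
        have h6 : (Polynomial.X ^ 3 + Polynomial.C a * Polynomial.X +
            Polynomial.C b : Polynomial K) ≠ 0 := by
          intro h7
          rw [h7] at h5
          simp at h5
        have h7 := congrArg Polynomial.natDegree (sub_eq_zero.1 h4)
        rw [Polynomial.natDegree_mul h6 (pow_ne_zero 2 hβ), Polynomial.natDegree_pow,
          Polynomial.natDegree_pow, h5] at h7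
        omega
      have hα : α = 0 := by
        rw [hβ, map_zero, mul_zero, add_zero] at hp
        by_contra h5
        exact hx ⟨_, h5, hp⟩
      rw [hev u v huv, hα, hβ]
      simp

end Pool.Agent.Helper23.CC
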